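import Pool.Agent.Helper34.Cq.Planar
import Pool.Agent.Helper34.Cq.Assemble
import Pool.Agent.Helper34.Cq.Alg
import Pool.Agent.Helper34.Cq.FinGen
import Pool.Agent.Helper34.Da.F
import Pool.Agent.Helper34.Cq.CresD
import Pool.Agent.Helper34.Cq.Bal
import Pool.Agent.Helper34.Cq.Cvx
import Pool.Agent.Helper34.Cq.Berg
import Pool.Agent.Helper34.Cq.SliceD

set_option autoImplicit false

namespace Pool.Agent.Results.MP_01c4da_an.IntrinsicBalanced

open Pool.Agent.Helper34.Cq MvPolynomial Topology Filter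

/-- `Y` is the space `D_α` of the unit disc: the power series with
`∑ (n+1)^α |a_n|^2 = ‖f‖^2 < ∞`. -/
def IsDal (α : ℝ) {Y : Type} [NormedAddCommGroup Y] [NormedSpace ℂ Y] [CompleteSpace Y]
    (T : BSAF 1 {w | ‖w 0‖ < 1} Y) : Prop :=
  (∀ f : Y, ∃ a : ℕ → ℂ, HasSum (fun n : ℕ => ((n : ℝ) + 1) ^ α * ‖a n‖ ^ 2) (‖f‖ ^ 2) ∧
    ∀ w, T.val f w = ∑' n : ℕ, a n * (w : Fin 1 → ℂ) 0 ^ n) ∧
  (∀ a : ℕ → ℂ, Summable (fun n : ℕ => ((n : ℝ) + 1) ^ α * ‖a n‖ ^ 2) →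
    ∃ f : Y, ∀ w, T.val f w = ∑' n : ℕ, a n * (w : Fin 1 → ℂ) 0 ^ n)

/-- The product of a function bounded by `C` with `F` has norm at most `K C ‖F‖`. -/
def NormControl {d : ℕ} {Ω : Set (Fin d → ℂ)} {Y : Type} [NormedAddCommGroup Y] [NormedSpace ℂ Y]
    [CompleteSpace Y] (T : BSAF d Ω Y) (K : ℝ) : Prop :=
  ∀ (q : (Fin d → ℂ) → ℂ) (C : ℝ), DifferentiableOn ℂ q Ω → (∀ w ∈ Ω, ‖q w‖ ≤ C) →
    ∀ F G : Y, (∀ w : Ω, T.val G w = q w * T.val F w) → ‖G‖ ≤ K * C * ‖F‖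

/-- The components of the open subset `Ω` of `ℂ^1`, seen as a subset of the plane, are simply
connected. -/
def SCComponents (Ω : Set (Fin 1 → ℂ)) : Prop :=
  ∀ z : ℂ, (fun _ => z) ∈ Ω →
    IsSimplyConnected (connectedComponentIn {z : ℂ | (fun _ => z) ∈ Ω} z)

/-- There is a space `Y` over a simply connected domain of the plane, and an element `F` of `Y`
that is cyclic for a finitely generated algebra of multipliers but not shift-cyclic, and `Y` does
not have (CP). -/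
def FailsSC : Prop :=
  ∃ (Ω : Set (Fin 1 → ℂ)) (Y : Type) (_ : NormedAddCommGroup Y) (_ : NormedSpace ℂ Y)
    (_ : CompleteSpace Y) (T : BSAF 1 Ω Y) (F : Y),
    IsSimplyConnected {z : ℂ | (fun _ => z) ∈ Ω} ∧ T.FGCyclic F ∧ ¬ T.ShiftCyclic F ∧
      ¬ HasCP.{0, 0} T

/-- `Ω` is balanced. -/
def Balanced' {d : ℕ} (Ω : Set (Fin d → ℂ)) : Prop :=
  ∀ w ∈ Ω, ∀ c : ℂ, ‖c‖ ≤ 1 → c • w ∈ Ω

theorem result :
    -- (1) characterisation of (CP) for every `Y`: closed submodules generated in `Y_h`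
    (∀ (d : ℕ) (Ω : Set (Fin d → ℂ)) (Y : Type) [NormedAddCommGroup Y] [NormedSpace ℂ Y]
      [CompleteSpace Y] (T : BSAF d Ω Y), HasCP.{0, 0} T ↔ ElemCond T) ∧
    -- (2) the same in terms of the Banach spaces `M` of elements of `Y` that are invariant under
    -- multiplication by finitely many functions
    (∀ (d : ℕ) (Ω : Set (Fin d → ℂ)) (Y : Type) [NormedAddCommGroup Y] [NormedSpace ℂ Y]
      [CompleteSpace Y] (T : BSAF d Ω Y), HasCP.{0, 0} T ↔ ModCond.{0, 0} T) ∧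
    -- (3) a sufficient and a necessary condition, for every `Y`
    (∀ (d : ℕ) (Ω : Set (Fin d → ℂ)) (Y : Type) [NormedAddCommGroup Y] [NormedSpace ℂ Y]
      [CompleteSpace Y] (T : BSAF d Ω Y),
      ((∀ F : Y, T.BddCyclic F → T.ShiftCyclic F) → HasCP.{0, 0} T) ∧
      (HasCP.{0, 0} T → ∀ F : Y, T.FGCyclic F → T.ShiftCyclic F)) ∧
    -- (4) modules over the bounded analytic functions, any dimension
    (∀ (d : ℕ) (Ω : Set (Fin d → ℂ)) (Y : Type) [NormedAddCommGroup Y] [NormedSpace ℂ Y]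
      [CompleteSpace Y] (T : BSAF d Ω Y), T.HInfModule → T.BPWeak → FinGenBP Ω →
      (HasCP.{0, 0} T ↔ ∀ F : Y, T.MultCyclic F → T.ShiftCyclic F)) ∧
    -- (5) in one variable: all open sets with simply connected components
    (∀ (Ω : Set (Fin 1 → ℂ)) (Y : Type) [NormedAddCommGroup Y] [NormedSpace ℂ Y]
      [CompleteSpace Y] (T : BSAF 1 Ω Y), T.HInfModule → T.BPWeak →
      SCComponents Ω →
      (HasCP.{0, 0} T ↔ ∀ F : Y, T.MultCyclic F → T.ShiftCyclic F)) ∧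
    -- (6) for reflexive `Y` the hypothesis `BPWeak` follows from norm control of the products
    (∀ (d : ℕ) (Ω : Set (Fin d → ℂ)) (Y : Type) [NormedAddCommGroup Y] [NormedSpace ℂ Y]
      [CompleteSpace Y] (T : BSAF d Ω Y),
      Function.Surjective (NormedSpace.inclusionInDoubleDual ℂ Y) →
      (∃ K : ℝ, NormControl T K) → T.BPWeak) ∧
    -- (7) every `Y` closed under multiplication has (CP)
    (∀ (d : ℕ) (Ω : Set (Fin d → ℂ)) (Y : Type) [NormedAddCommGroup Y] [NormedSpace ℂ Y]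
      [CompleteSpace Y] (T : BSAF d Ω Y), T.IsAlg → HasCP.{0, 0} T) ∧
    -- (8) the spaces `D_α` of the unit disc, for every real `α`
    (∀ α : ℝ, ∃ (Y : Type) (_ : NormedAddCommGroup Y) (_ : NormedSpace ℂ Y) (_ : CompleteSpace Y)
      (T : BSAF 1 {w | ‖w 0‖ < 1} Y), IsDal α T ∧ HasCP.{0, 0} T) ∧
    -- (9) property (CP) can fail, even over a simply connected domain of the plane
    FailsSC ∧
    -- (10) modules over the bounded analytic functions on convex or balanced open sets, any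
    -- dimension
    (∀ (d : ℕ) (Ω : Set (Fin d → ℂ)) (Y : Type) [NormedAddCommGroup Y] [NormedSpace ℂ Y]
      [CompleteSpace Y] (T : BSAF d Ω Y), (Convex ℝ Ω ∨ Balanced' Ω) → T.HInfModule → T.BPWeak →
      HasCP.{0, 0} T) ∧
    -- (11) weighted Bergman spaces, any dimension
    (∀ (d : ℕ) (Ω : Set (Fin d → ℂ)) (Y : Type) [NormedAddCommGroup Y] [NormedSpace ℂ Y]
      [CompleteSpace Y] (T : BSAF d Ω Y) (p : ℝ) (μ : MeasureTheory.Measure (Fin d → ℂ)), 1 ≤ p →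
      IsBergman T p μ → T.HInfModule ∧ T.BPWeak) ∧
    -- (12) Dirichlet type spaces on balanced open sets, any dimension
    (∀ (d : ℕ) (Ω : Set (Fin d → ℂ)) (Y : Type) [NormedAddCommGroup Y] [NormedSpace ℂ Y]
      [CompleteSpace Y] (T : BSAF d Ω Y) (α : ℝ) (σ : MeasureTheory.Measure (Fin d → ℂ)),
      Balanced' Ω → α ≤ 2 → Slice.IsSlice T α σ → HasCP.{0, 0} T) := by
  refine ⟨?_, ?_, ?_, ?_, ?_, ?_, ?_, ?_, ?_, ?_, ?_, ?_⟩
  · intro d Ω Y _ _ _ T
    exact hasCP_iff_invE T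
  · intro d Ω Y _ _ _ T
    exact hasCP_iff_inv T
  · intro d Ω Y _ _ _ T
    exact ⟨fun h => hasCP_of_bddCyclic T h, fun h F hF => shiftCyclic_of_fg T h F hF⟩
  · intro d Ω Y _ _ _ T h1 h2 h3
    exact hasCP_iff_mult T h1 h2 h3
  · intro Ω Y _ _ _ T h1 h2 h3
    apply hasCP_iff_mult T h1 h2
    have hΩ : Ω = {w : Fin 1 → ℂ | w 0 ∈ {z : ℂ | (fun _ => z) ∈ Ω}} := by
      ext w
      change w ∈ Ω ↔ (fun _ : Fin 1 => w 0) ∈ Ω
      rw [cst_eq']
    have hcst : Continuous (fun z : ℂ => (fun _ : Fin 1 => z)) := continuous_pi fun _ => continuous_id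
    rw [hΩ]
    apply finGenBP_of_genBy
    apply genBy_planar _ (T.isOpen.preimage hcst) _ h3
    intro huniv
    obtain ⟨C, hC⟩ := T.maxDomain_bdd (X 0)
    have h4 : ∀ z : ℂ, ‖z‖ ≤ C := by
      intro z
      have h5 : z ∈ (fun z : ℂ => (fun _ : Fin 1 => z)) ⁻¹' Ω := by
        rw [huniv]; exact Set.mem_univ z
      have h6 := hC _ (T.mem_maxDomain ⟨_, h5⟩)
      simpa using h6
    have h7 := h4 ((|C| + 1 : ℝ) : ℂ)
    rw [Complex.norm_real, Real.norm_eq_abs, abs_of_nonneg (by positivity)] at h7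
    linarith [le_abs_self C]
  · intro d Ω Y _ _ _ T h1 ⟨K, hK⟩
    exact T.bpWeak_of_reflexive h1 K hK
  · intro d Ω Y _ _ _ T h
    exact hasCP_of_alg T h
  · intro α
    refine ⟨Pool.Agent.Helper34.Da.H2, inferInstance, inferInstance, inferInstance,
      Pool.Agent.Helper34.Da.Dal α, ⟨?_, ?_⟩, Pool.Agent.Helper34.Da.hasCP_Dal α⟩
    · intro f
      exact ⟨Pool.Agent.Helper34.Da.co α f, Pool.Agent.Helper34.Da.co_norm α f, fun w => rfl⟩
    · intro a ha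
      obtain ⟨f, hf⟩ := Pool.Agent.Helper34.Da.exists_co α a ha
      exact ⟨f, fun w => by rw [← hf]; rfl⟩
  · exact ⟨Cres.D.Ω, Cres.D.Sp, inferInstance, inferInstance, inferInstance, Cres.D.bs, Cres.Fe,
      Cres.D_sc, Cres.Fe_fg, Cres.Fe_not_cyclic, Cres.D_not_CP⟩
  · intro d Ω Y _ _ _ T h1 h2 h3
    rcases h1 with h1 | h1
    · exact Cvx.hasCP_convex T h1 h2 h3
    · exact Bal.hasCP_bal T h1 h2 h3
  · intro d Ω Y _ _ _ T p μ hp h
    exact ⟨hInf_of_bergman T hp h, bpWeak_of_bergman T hp h⟩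
  · intro d Ω Y _ _ _ T α σ h1 h2 h3
    exact Slice.hasCP_slice' T h1 h2 h3

end Pool.Agent.Results.MP_01c4da_an.IntrinsicBalanced
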